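import Pool.Agent.Helper11.NH.Sheet
import Pool.Agent.Helper35.NH.ORDER
open MeasureTheory Metric Set Filter Topology Real
open scoped ENNReal NNReal

/-!
# Row GEO of the sheet NH: plane geometry of the tree
-/

namespace H11ST
namespace NH
namespace Geo72

theorem comp_seg (x y : E 2) : IsCompact (segment ℝ x y) := by
  rw [segment_eq_image_lineMap]
  exact isCompact_Icc.image AffineMap.lineMap_continuous

theorem prec_seg (x y : E 2) : IsPreconnected (segment ℝ x y) := (convex_segment x y).isPreconnected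

/-- the two edges and the arms of a set of indices -/
def part (s : Fin 3 → E 2) (v : Fin 5 → E 2) (J : Set (Fin 5)) : Set (E 2) :=
  segment ℝ (s 0) (s 1) ∪ segment ℝ (s 0) (s 2) ∪ ⋃ j ∈ J, segment ℝ (s (ft j)) (v j)

theorem tree_eq (s : Fin 3 → E 2) (v : Fin 5 → E 2) : tree s v = part s v univ := by
  simp only [tree, part, biUnion_univ]

theorem rest_eq (s : Fin 3 → E 2) (v : Fin 5 → E 2) (i : Fin 5) :
    rest s v i = part s v {j | j ≠ i} := rfl

theorem part_comp (s : Fin 3 → E 2) (v : Fin 5 → E 2) (J : Set (Fin 5)) :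
    IsCompact (part s v J) :=
  ((comp_seg _ _).union (comp_seg _ _)).union
    ((Set.toFinite J).isCompact_biUnion fun _ _ => comp_seg _ _)

theorem s_edge (s : Fin 3 → E 2) (k : Fin 3) :
    s k ∈ segment ℝ (s 0) (s 1) ∪ segment ℝ (s 0) (s 2) := by
  fin_cases k
  · exact Or.inl (left_mem_segment ℝ _ _)
  · exact Or.inl (right_mem_segment ℝ _ _)
  · exact Or.inr (right_mem_segment ℝ _ _)

theorem edge_prec (s : Fin 3 → E 2) :
    IsPreconnected (segment ℝ (s 0) (s 1) ∪ segment ℝ (s 0) (s 2)) :=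
  IsPreconnected.union (s 0) (left_mem_segment ℝ _ _) (left_mem_segment ℝ _ _) (prec_seg _ _)
    (prec_seg _ _)

theorem part_prec (s : Fin 3 → E 2) (v : Fin 5 → E 2) (J : Set (Fin 5)) :
    IsPreconnected (part s v J) := by
  refine isPreconnected_of_forall (s 0) fun y hy => ?_
  rcases hy with hy | hy
  · exact ⟨_, subset_union_left, s_edge s 0, hy, edge_prec s⟩
  · simp only [mem_iUnion, exists_prop] at hy
    obtain ⟨j, hj, hy⟩ := hy
    refine ⟨(segment ℝ (s 0) (s 1) ∪ segment ℝ (s 0) (s 2)) ∪ segment ℝ (s (ft j)) (v j), ?_,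
      Or.inl (s_edge s 0), Or.inr hy, ?_⟩
    · refine union_subset_union_right _ fun z hz => ?_
      simp only [mem_iUnion, exists_prop]
      exact ⟨j, hj, hz⟩
    · exact IsPreconnected.union (s (ft j)) (s_edge s _) (left_mem_segment ℝ _ _) (edge_prec s)
        (prec_seg _ _)

theorem s_part (s : Fin 3 → E 2) (v : Fin 5 → E 2) (J : Set (Fin 5)) (k : Fin 3) :
    s k ∈ part s v J := Or.inl (s_edge s k)

theorem v_part (s : Fin 3 → E 2) (v : Fin 5 → E 2) (J : Set (Fin 5)) (j : Fin 5) (hj : j ∈ J) :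
    v j ∈ part s v J := by
  right
  simp only [mem_iUnion, exists_prop]
  exact ⟨j, hj, right_mem_segment ℝ _ _⟩

theorem par {x y z : E 2} (hz : z ∈ segment ℝ x y) (p o : E 2) :
    ∃ t : ℝ, 0 ≤ t ∧ t ≤ 1 ∧ z = x + t • (y - x) ∧
      cr p (z - o) = cr p (x - o) + t * (cr p (y - o) - cr p (x - o)) := by
  rw [segment_eq_image'] at hz
  obtain ⟨t, ht, rfl⟩ := hz
  refine ⟨t, ht.1, ht.2, rfl, ?_⟩
  simp only [cr_sub_right, cr_add_right, cr_smul_right]
  ring

theorem Yev (φ θ : ℝ) : cr (ev φ) (ev (φ + θ)) = sin θ := by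
  rw [show ev φ = pt φ from rfl, show ev (φ + θ) = pt (φ + θ) from rfl, cr_pt]
  congr 1
  ring

theorem sin_a : sin (2 * π / 3) = √3 / 2 := by
  rw [show 2 * π / 3 = π - π / 3 by ring, sin_pi_sub, sin_pi_div_three]

theorem sin_b : sin (5 * π / 3) = -(√3 / 2) := by
  rw [show 5 * π / 3 = 2 * π - π / 3 by ring, sin_two_pi_sub, sin_pi_div_three]

/-- the heights of the points over the line of the arm `0` -/
theorem heights {φ : ℝ} {s : Fin 3 → E 2} {a : Fin 2 → ℝ} {v : Fin 5 → E 2} {c : Fin 5 → ℝ}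
    (G : Geo φ s a v c) : ∃ A B C D : ℝ, 0 < A ∧ 0 < B ∧ 0 < C ∧ 0 < D ∧
      cr (ev φ) (s 0 - s 0) = 0 ∧ cr (ev φ) (s 1 - s 0) = A ∧ cr (ev φ) (s 2 - s 0) = -B ∧
      cr (ev φ) (v 0 - s 0) = 0 ∧ cr (ev φ) (v 1 - s 0) = A + C ∧
      cr (ev φ) (v 2 - s 0) = A ∧ cr (ev φ) (v 3 - s 0) = -B ∧
      cr (ev φ) (v 4 - s 0) = -B - D := by
  have h3 : (0 : ℝ) < √3 / 2 := by positivity
  have e1 : cr (ev φ) (s 1 - s 0) = a 0 * (√3 / 2) := by
    rw [G.s1, add_sub_cancel_left, cr_smul_right, Yev, sin_a]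
  have e2 : cr (ev φ) (s 2 - s 0) = -(a 1 * (√3 / 2)) := by
    rw [G.s2, add_sub_cancel_left, cr_smul_right, show φ - 2 * π / 3 = φ + -(2 * π / 3) by ring,
      Yev, sin_neg, sin_a]
    ring
  have dvy : ∀ i, cr (ev φ) (dv φ i) = sin (dl i) := fun i => Yev φ (dl i)
  have hv : ∀ i, cr (ev φ) (v i - s 0) = cr (ev φ) (s (ft i) - s 0) + c i * sin (dl i) := by
    intro i
    rw [G.vd i, add_sub_right_comm, cr_add_right, cr_smul_right, dvy]
  refine ⟨a 0 * (√3 / 2), a 1 * (√3 / 2), c 1 * (√3 / 2), c 4 * (√3 / 2),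
    mul_pos (G.apos 0) h3, mul_pos (G.apos 1) h3, mul_pos (G.cpos 1) h3,
    mul_pos (G.cpos 4) h3, ?_, e1, e2, ?_, ?_, ?_, ?_, ?_⟩
  · rw [sub_self, cr]
    simp
  · rw [hv 0]
    have : dl 0 = 0 := rfl
    have h0 : ft 0 = 0 := rfl
    rw [this, h0, sub_self, sin_zero, cr]
    simp
  · rw [hv 1]
    have : dl 1 = π / 3 := rfl
    have h0 : ft 1 = 1 := rfl
    rw [this, h0, e1, sin_pi_div_three]
  · rw [hv 2]
    have : dl 2 = π := rfl
    have h0 : ft 2 = 1 := rfl
    rw [this, h0, e1, sin_pi]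
    ring
  · rw [hv 3]
    have : dl 3 = π := rfl
    have h0 : ft 3 = 2 := rfl
    rw [this, h0, e2, sin_pi]
    ring
  · rw [hv 4]
    have : dl 4 = 5 * π / 3 := rfl
    have h0 : ft 4 = 2 := rfl
    rw [this, h0, e2, sin_b]
    ring

theorem z_eq0 {x y z : E 2} {t : ℝ} (hz : z = x + t • (y - x)) (ht : t = 0) : z = x := by
  rw [hz, ht, zero_smul, add_zero]

theorem z_eq1 {x y z : E 2} {t : ℝ} (hz : z = x + t • (y - x)) (ht : t = 1) : z = y := by
  rw [hz, ht, one_smul, add_sub_cancel]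

theorem five (i : Fin 5) : i = 0 ∨ i = 1 ∨ i = 2 ∨ i = 3 ∨ i = 4 := by
  revert i
  decide

theorem meet {φ : ℝ} {s : Fin 3 → E 2} {a : Fin 2 → ℝ} {v : Fin 5 → E 2} {c : Fin 5 → ℝ}
    (G : Geo φ s a v c) (i : Fin 5) :
    rest s v i ∩ segment ℝ (s (ft i)) (v i) ⊆ {s (ft i)} := by
  rintro z ⟨hz, hi⟩
  rw [mem_singleton_iff]
  obtain ⟨A, B, C, D, hA, hB, hC, hD, h0, h1, h2, k0, k1, k2, k3, k4⟩ := heights G
  obtain ⟨t, t0, t1, zt, yt⟩ := par hi (ev φ) (s 0)
  simp only [rest, mem_union, mem_iUnion, mem_ofPred_eq, exists_prop] at hz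
  have f0 : ft 0 = 0 := rfl
  have f1 : ft 1 = 1 := rfl
  have f2 : ft 2 = 1 := rfl
  have f3 : ft 3 = 2 := rfl
  have f4 : ft 4 = 2 := rfl
  have tC : 0 ≤ t * C := mul_nonneg t0 hC.le
  have tD : 0 ≤ t * D := mul_nonneg t0 hD.le
  rcases hz with (hz | hz) | ⟨j, hj, hz⟩
  · obtain ⟨u, u0, u1, zu, yu⟩ := par hz (ev φ) (s 0)
    rw [h0, h1] at yu
    have uA : 0 ≤ u * A := mul_nonneg u0 hA.le
    have uA1 : u * A ≤ A := by nlinarith
    rcases five i with rfl | rfl | rfl | rfl | rfl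
    · rw [f0, h0, k0] at yt
      rw [f0]
      exact z_eq0 zu (by nlinarith)
    · rw [f1, h1, k1] at yt
      rw [f1] at zt ⊢
      exact z_eq0 zt (by nlinarith)
    · rw [f2, h1, k2] at yt
      rw [f2]
      exact z_eq1 zu (by nlinarith)
    · rw [f3, h2, k3] at yt
      exfalso
      nlinarith
    · rw [f4, h2, k4] at yt
      exfalso
      nlinarith
  · obtain ⟨u, u0, u1, zu, yu⟩ := par hz (ev φ) (s 0)
    rw [h0, h2] at yu
    have uB : 0 ≤ u * B := mul_nonneg u0 hB.le
    have uB1 : u * B ≤ B := by nlinarith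
    rcases five i with rfl | rfl | rfl | rfl | rfl
    · rw [f0, h0, k0] at yt
      rw [f0]
      exact z_eq0 zu (by nlinarith)
    · rw [f1, h1, k1] at yt
      exfalso
      nlinarith
    · rw [f2, h1, k2] at yt
      exfalso
      nlinarith
    · rw [f3, h2, k3] at yt
      rw [f3]
      exact z_eq1 zu (by nlinarith)
    · rw [f4, h2, k4] at yt
      rw [f4] at zt ⊢
      exact z_eq0 zt (by nlinarith)
  · obtain ⟨u, u0, u1, zu, yu⟩ := par hz (ev φ) (s 0)
    have uC : 0 ≤ u * C := mul_nonneg u0 hC.le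
    have uD : 0 ≤ u * D := mul_nonneg u0 hD.le
    have hy : ∀ i : Fin 5, cr (ev φ) (s (ft i) - s 0) = ![0, A, A, -B, -B] i := by
      intro i
      rcases five i with rfl | rfl | rfl | rfl | rfl
      · exact h0
      · exact h1
      · exact h1
      · exact h2
      · exact h2
    have hk : ∀ i : Fin 5, cr (ev φ) (v i - s 0) = ![0, A + C, A, -B, -B - D] i := by
      intro i
      rcases five i with rfl | rfl | rfl | rfl | rfl
      · exact k0
      · exact k1
      · exact k2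
      · exact k3
      · exact k4
    rw [hy, hk] at yt yu
    rcases five i with rfl | rfl | rfl | rfl | rfl <;>
      rcases five j with rfl | rfl | rfl | rfl | rfl
    all_goals first
      | exact absurd rfl hj
      | (simp only [Matrix.cons_val] at yt yu
         first
         | (exfalso; nlinarith)
         | exact z_eq0 zt (by nlinarith)
         | exact z_eq0 zu (by nlinarith))

end Geo72

open Geo72 in
theorem geo : NH_GEO := by
  intro φ s a v c G
  have hs : ∀ k, s k ∈ closedBall (0 : E 2) 1 := fun k => by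
    rw [mem_closedBall_zero_iff]
    linarith [G.sn k]
  have hv : ∀ i, v i ∈ closedBall (0 : E 2) 1 := fun i => by
    rw [mem_closedBall_zero_iff]
    exact G.vup i
  have cv := convex_closedBall (0 : E 2) 1
  refine ⟨?_, ?_, ?_, ?_, ?_⟩
  · rw [tree_eq]
    exact part_comp s v _
  · rw [tree_eq]
    exact part_prec s v _
  · refine union_subset (union_subset (cv.segment_subset (hs 0) (hs 1))
      (cv.segment_subset (hs 0) (hs 2))) (iUnion_subset fun i => cv.segment_subset (hs _) (hv i))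
  · intro i
    refine Subset.antisymm ?_ ?_
    · rintro z (hz | hz)
      · exact Or.inl (Or.inl hz)
      · simp only [mem_iUnion] at hz
        obtain ⟨j, hz⟩ := hz
        by_cases hj : j = i
        · subst hj
          exact Or.inr hz
        · left
          right
          simp only [mem_iUnion, exists_prop]
          exact ⟨j, hj, hz⟩
    · rintro z ((hz | hz) | hz)
      · exact Or.inl hz
      · simp only [mem_iUnion, exists_prop] at hz
        obtain ⟨j, hj, hz⟩ := hz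
        exact Or.inr (mem_iUnion.2 ⟨j, hz⟩)
      · exact Or.inr (mem_iUnion.2 ⟨i, hz⟩)
  · intro i
    refine ⟨part_comp s v _, part_prec s v _, s_part s v _, fun j hj => v_part s v _ j hj, meet G i⟩

end NH
end H11ST
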